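import Pool.Agent.Helper25_CN2.Stmts
import Pool.Agent.Helper25_CON.PDLem

/-!
Squad CN2, module G_ASM: the Gram matrix of an orthogonal sum (helper24)
-/

noncomputable section

namespace Pool.Agent.CN2.H24

open Pool.Agent.H25Cong Pool.Agent.CON Pool.Agent.CN2

/-- all rows have length m -/
def WF (G : List (List ℤ)) : Prop := ∀ r ∈ G, r.length = G.length

lemma wf_mat (m : ℕ) (f : ℕ → ℕ → ℤ) : WF (mat m f) := by
  intro r hr
  simp only [mat, List.mem_map, List.mem_range] at hr
  obtain ⟨i, -, rfl⟩ := hr
  simp [mat]

lemma blk_length (G H : List (List ℤ)) : (blk G H).length = G.length + H.length := by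
  simp [blk]

lemma wf_blk {G H : List (List ℤ)} (hG : WF G) (hH : WF H) : WF (blk G H) := by
  intro r hr
  rw [blk_length]
  simp only [blk, List.mem_append, List.mem_map] at hr
  rcases hr with ⟨r, hr, rfl⟩ | ⟨r, hr, rfl⟩
  · simp [hG r hr]
  · simp [hH r hr]

lemma getD_len {G : List (List ℤ)} (hG : WF G) {i : ℕ} (hi : i < G.length) :
    (G.getD i []).length = G.length := by
  rw [List.getD_eq_getElem _ _ hi]
  exact hG _ (List.getElem_mem hi)

lemma ent_ll {G H : List (List ℤ)} (hG : WF G) {i j : ℕ} (hi : i < G.length)
    (hj : j < G.length) : ent (blk G H) i j = ent G i j := by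
  have h1 : (blk G H).getD i [] = G.getD i [] ++ List.replicate H.length 0 := by
    rw [blk, List.getD_append _ _ _ _ (by simpa using hi), List.getD_eq_getElem _ _ (by simpa using hi),
      List.getD_eq_getElem _ _ hi, List.getElem_map]
  rw [ent, h1, List.getD_append _ _ _ _ (by rw [getD_len hG hi]; exact hj)]
  rfl

lemma ent_lr {G H : List (List ℤ)} (hG : WF G) {i j : ℕ} (hi : i < G.length)
    (hj : G.length ≤ j) : ent (blk G H) i j = 0 := by
  have h1 : (blk G H).getD i [] = G.getD i [] ++ List.replicate H.length 0 := by
    rw [blk, List.getD_append _ _ _ _ (by simpa using hi), List.getD_eq_getElem _ _ (by simpa using hi),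
      List.getD_eq_getElem _ _ hi, List.getElem_map]
  rw [ent, h1, List.getD_append_right _ _ _ _ (by rw [getD_len hG hi]; exact hj)]
  by_cases h : j - (G.getD i []).length < H.length
  · rw [List.getD_eq_getElem _ _ (by simpa using h)]
    simp
  · rw [List.getD_eq_default _ _ (by simpa using h)]

lemma row_r {G H : List (List ℤ)} {i : ℕ} (hi : G.length ≤ i) (hi' : i < G.length + H.length) :
    (blk G H).getD i [] = List.replicate G.length 0 ++ H.getD (i - G.length) [] := by
  have h2 : i - G.length < H.length := by omega
  rw [blk, List.getD_append_right _ _ _ _ (by simpa using hi), List.length_map,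
    List.getD_eq_getElem _ _ (by simpa using h2), List.getD_eq_getElem _ _ h2, List.getElem_map]

lemma ent_rl {G H : List (List ℤ)} {i j : ℕ} (hi : G.length ≤ i)
    (hi' : i < G.length + H.length) (hj : j < G.length) : ent (blk G H) i j = 0 := by
  rw [ent, row_r hi hi', List.getD_append _ _ _ _ (by simpa using hj),
    List.getD_eq_getElem _ _ (by simpa using hj)]
  simp

lemma ent_rr {G H : List (List ℤ)} {i j : ℕ} (hi : G.length ≤ i)
    (hi' : i < G.length + H.length) (hj : G.length ≤ j) :
    ent (blk G H) i j = ent H (i - G.length) (j - G.length) := by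
  rw [ent, row_r hi hi', List.getD_append_right _ _ _ _ (by simpa using hj), List.length_replicate]
  rfl

variable {M : Type} [AddCommGroup M] {b : M → M → ℤ}

lemma grb_sup (hb : PD b) {S S' : AddSubgroup M} {G G' : List (List ℤ)} (hG : WF G)
    (hS : GrB b S G) (hS' : GrB b S' G') (ho : ∀ x ∈ S, ∀ y ∈ S', b x y = 0) :
    GrB b (S ⊔ S') (blk G G') := by
  obtain ⟨c, c1, c2, c3⟩ := hS
  obtain ⟨d, d1, d2, d3⟩ := hS'
  refine ⟨fun i => if i < G.length then c i else d (i - G.length), ?_, ?_, ?_⟩
  · intro i hi
    rw [blk_length] at hi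
    by_cases h : i < G.length
    · simp only [h, if_true]
      exact AddSubgroup.mem_sup_left (c1 i h)
    · simp only [h, if_false]
      exact AddSubgroup.mem_sup_right (d1 _ (by omega))
  · intro x hx
    rw [blk_length]
    have hle : S ⊔ S' ≤ AddSubgroup.closure
        ((fun i => if i < G.length then c i else d (i - G.length)) ''
          {i | i < G.length + G'.length}) := by
      refine sup_le ?_ ?_
      · intro y hy
        refine AddSubgroup.closure_mono ?_ (c2 y hy)
        rintro _ ⟨i, hi, rfl⟩
        refine ⟨i, ?_, ?_⟩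
        · simp only [Set.mem_setOf_eq] at hi ⊢; omega
        · simp only [Set.mem_setOf_eq] at hi
          simp [hi]
      · intro y hy
        refine AddSubgroup.closure_mono ?_ (d2 y hy)
        rintro _ ⟨i, hi, rfl⟩
        refine ⟨i + G.length, ?_, ?_⟩
        · simp only [Set.mem_setOf_eq] at hi ⊢; omega
        · simp
    exact hle hx
  · intro i hi j hj
    rw [blk_length] at hi hj
    by_cases h : i < G.length <;> by_cases h' : j < G.length
    · simp only [h, h', if_true]
      rw [ent_ll hG h h', c3 i h j h']
    · simp only [h, h', if_true, if_false]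
      rw [ent_lr hG h (by omega)]
      exact ho _ (c1 i h) _ (d1 _ (by omega))
    · simp only [h, h', if_true, if_false]
      rw [ent_rl (by omega) hi h', hb.symm]
      exact ho _ (c1 j h') _ (d1 _ (by omega))
    · simp only [h, h', if_false]
      rw [ent_rr (by omega) hi (by omega)]
      exact d3 _ (by omega) _ (by omega)

lemma grb_bot : GrB b (⊥ : AddSubgroup M) [] := by
  refine ⟨fun _ => 0, by simp, ?_, by simp⟩
  intro x hx
  rw [AddSubgroup.mem_bot] at hx
  rw [hx]
  exact zero_mem _

/-- T13: the Gram matrix of the sum -/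
theorem g_asm (hT : T_GR) : G_ASM := by
  intro M _ b k C s τ l hb hC hl hall
  have key : ∀ l : List (Fin k), l.Nodup →
      GrB b (AddSubgroup.closure (⋃ i ∈ l, C i)) (gr (l.map fun i => (τ i, s i))) := by
    intro l
    induction l with
    | nil =>
      intro _
      simp only [List.not_mem_nil, Set.iUnion_of_empty, Set.iUnion_empty, AddSubgroup.closure_empty,
        List.map_nil, gr]
      exact grb_bot
    | cons i l ih =>
      intro hn
      rw [List.nodup_cons] at hn
      have h1 := hT M b (C i) (s i) (τ i) hb (hC.irr i) (hC.ty i)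
      have h2 := grb_sup hb (wf_mat _ _) h1 (ih hn.2) ?_
      · rw [← AddSubgroup.closure_union] at h2
        have e : C i ∪ (⋃ j ∈ l, C j) = ⋃ j ∈ i :: l, C j := by
          ext x
          simp
        rw [e] at h2
        exact h2
      · intro x hx y hy
        induction hx using AddSubgroup.closure_induction with
        | mem x hx =>
          induction hy using AddSubgroup.closure_induction with
          | mem y hy =>
            simp only [Set.mem_iUnion] at hy
            obtain ⟨j, hj, hy⟩ := hy
            exact hC.orth i j (by rintro rfl; exact hn.1 hj) x hx y hy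
          | zero => exact hb.zero_right _
          | add y z _ _ h1 h2 => rw [hb.add_right, h1, h2, add_zero]
          | neg y _ h1 => rw [hb.neg_right, h1, neg_zero]
        | zero => exact hb.zero_left _
        | add y z _ _ h1 h2 => rw [hb.add_left, h1, h2, add_zero]
        | neg y _ h1 => rw [hb.neg_left, h1, neg_zero]
  have h := key l hl
  have e : AddSubgroup.closure (⋃ i ∈ l, C i) = ⊤ := by
    rw [eq_top_iff]
    intro x _
    refine AddSubgroup.closure_mono ?_ (hC.gen x)
    intro y hy
    simp only [Set.mem_iUnion] at hy ⊢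
    obtain ⟨i, hi⟩ := hy
    exact ⟨i, hall i, hi⟩
  rw [e] at h
  exact h

end Pool.Agent.CN2.H24

end
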