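import Pool.Agent.Helper25_CN2.Stmts
import Pool.Agent.Helper24_CON.GH8

/-!
Squad CN2, module T_HE8: a maximal frame of size 8 with a half root has type E_8 (helper24)
-/

noncomputable section

namespace Pool.Agent.CN2.H24

open Pool.Agent.H25Cong Pool.Agent.CON Pool.Agent.CN2

variable {M : Type} [AddCommGroup M] {b : M → M → ℤ}

lemma two_inj (h : PD b) {x y : M} (e : (2 : ℤ) • x = (2 : ℤ) • y) : x = y := by
  have h1 : (2 : ℤ) • (x - y) = 0 := by rw [smul_sub, e, sub_self]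
  by_contra hne
  have h2 := h.pos (x - y) (sub_ne_zero.2 hne)
  have h3 : b ((2 : ℤ) • (x - y)) (x - y) = 0 := by rw [h1, CON.H24.zero_left h]
  rw [CON.H24.zsmul_left h] at h3
  omega

lemma neg_root {C : Set M} {s : ℤ} (hI : Irr b C s) {α : M} (hα : α ∈ C) : -α ∈ C := by
  have := hI.refl α hα α hα 2 (hI.norm α hα)
  have e : α - (2 : ℤ) • α = -α := by rw [two_smul]; abel
  rwa [e] at this

/-- a sign change of the frame -/
lemma dfr_sign (h : PD b) {C : Set M} {s : ℤ} {k : ℕ} {F : Fin k → M} (hI : Irr b C s)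
    (hF : DFr b C s k F) {δ : Fin k → ℤ} (hδ : ∀ i, δ i = 1 ∨ δ i = -1) :
    DFr b C s k fun i => δ i • F i := by
  obtain ⟨h1, h2, h3⟩ := hF
  have hN : ∀ {u : M}, (∃ w ∈ C, (2 : ℤ) • w = u) → ∃ w ∈ C, (2 : ℤ) • w = -u := by
    rintro u ⟨w, hw, rfl⟩
    exact ⟨-w, neg_root hI hw, by rw [smul_neg]⟩
  refine ⟨?_, ?_, ?_⟩
  · intro i
    rw [CON.H24.zsmul_left h, CON.H24.zsmul_right h, h1]
    rcases hδ i with e | e <;> rw [e] <;> ring
  · intro i j hij
    rw [CON.H24.zsmul_left h, CON.H24.zsmul_right h, h2 i j hij]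
    ring
  · intro i j hij
    obtain ⟨ha, hb⟩ := h3 i j hij
    rcases hδ i with e | e <;> rcases hδ j with e' | e' <;>
      simp only [e, e', one_smul, neg_smul]
    · exact ⟨ha, hb⟩
    · refine ⟨?_, ?_⟩
      · rw [← sub_eq_add_neg]; exact hb
      · rw [sub_neg_eq_add]; exact ha
    · refine ⟨?_, ?_⟩
      · have := hN hb
        rwa [neg_sub, sub_eq_neg_add] at this
      · have := hN ha
        rwa [neg_add, ← sub_eq_add_neg] at this
    · refine ⟨?_, ?_⟩
      · have := hN ha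
        rwa [neg_add] at this
      · have := hN hb
        rwa [neg_sub, sub_eq_neg_add, ← sub_neg_eq_add, sub_neg_eq_add, ← sub_neg_eq_add] at this

/-- the frames of size 8 : every root is of one of the two types -/
lemma types8 (hE : G_EXT) (hT : G_TYP) {C : Set M} {s : ℤ} {F : Fin 8 → M} {α : M} (h : PD b)
    (hI : Irr b C s) (hF : DFr b C s 8 F) (hM : MaxD b C s 8) (hα : α ∈ C)
    (hH : Half b s F α) : ∀ β ∈ C, InD F β ∨ Half b s F β := by
  have key : ∀ β, (InD F β ∨ (β ∈ C ∧ Half b s F β)) →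
      ∃ m : ℤ, m ≠ 0 ∧ m • β ∈ Submodule.span ℤ (Set.range F) := by
    rintro β (hβ | ⟨hβ, ε, h1, h2⟩)
    · obtain ⟨i, j, -, hij⟩ := hβ
      have hi : F i ∈ Submodule.span ℤ (Set.range F) := Submodule.subset_span ⟨i, rfl⟩
      have hj : F j ∈ Submodule.span ℤ (Set.range F) := Submodule.subset_span ⟨j, rfl⟩
      refine ⟨2, by norm_num, ?_⟩
      rcases hij with h | h | h <;> rw [h]
      · exact add_mem hi hj
      · exact sub_mem hi hj
      · exact neg_mem (add_mem hi hj)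
    · refine ⟨4, by norm_num, ?_⟩
      rw [CON.H24.half_span h hI hF hβ h1 h2]
      exact Submodule.sum_mem _ fun i _ => Submodule.smul_mem _ _ (Submodule.subset_span ⟨i, rfl⟩)
  have hD : {β | β ∈ C ∧ (InD F β ∨ Half b s F β)} = C := by
    refine hI.conn _ (fun β hβ => hβ.1) ⟨α, hα, Or.inr hH⟩ ?_
    rintro β ⟨hβ, hβ2⟩ γ hγ hγ2
    have hγ3 : ∀ i, b γ (F i) = 0 := by
      rcases hT M b C s 8 F γ h hI (by norm_num) hF hγ with h1 | h1 | ⟨i0, h1, h2⟩ | ⟨-, h1⟩
      · exact h1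
      · exact absurd ⟨hγ, Or.inl h1⟩ hγ2
      · exfalso
        obtain ⟨F', hF'⟩ := hE M b C s 8 F γ i0 h hI (by norm_num) hF hγ h1 h2
        exact hM 9 (by norm_num) F' hF'
      · exact absurd ⟨hγ, Or.inr h1⟩ hγ2
    have hsp : ∀ x ∈ Submodule.span ℤ (Set.range F), b x γ = 0 := by
      intro x hx
      induction hx using Submodule.span_induction with
      | mem x hx =>
        obtain ⟨i, rfl⟩ := hx
        rw [h.symm]; exact hγ3 i
      | zero => exact CON.H24.zero_left h γ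
      | add x y _ _ hx hy => rw [h.add_left, hx, hy, add_zero]
      | smul a x _ hx => rw [CON.H24.zsmul_left h, hx, mul_zero]
    obtain ⟨m, hm0, hm⟩ := key β (hβ2.imp id (fun h => ⟨hβ, h⟩))
    have h1 := hsp _ hm
    rw [CON.H24.zsmul_left h] at h1
    rcases mul_eq_zero.1 h1 with h2 | h2
    · exact absurd h2 hm0
    · exact h2
  intro β hβ
  rw [← hD] at hβ
  exact hβ.2

/-- the doubles of the elements of H -/
def dbl (H : AddSubgroup M) : AddSubgroup M where
  carrier := {x | ∃ w ∈ H, (2 : ℤ) • w = x}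
  add_mem' := by
    rintro _ _ ⟨w, hw, rfl⟩ ⟨w', hw', rfl⟩
    exact ⟨w + w', H.add_mem hw hw', smul_add _ _ _⟩
  zero_mem' := ⟨0, H.zero_mem, smul_zero _⟩
  neg_mem' := by
    rintro _ ⟨w, hw, rfl⟩
    exact ⟨-w, H.neg_mem hw, smul_neg _ _⟩

lemma mem_dbl (h : PD b) {H : AddSubgroup M} {x : M} (hx : (2 : ℤ) • x ∈ dbl H) : x ∈ H := by
  obtain ⟨w, hw, e⟩ := hx
  rwa [two_inj h e] at hw

/-- T5 -/
theorem t_he8 (hE : G_EXT) (hT : G_TYP) (_ : G_FLP) : T_HE 8 8 := by
  intro M _ b C s F0 α h hI hF0 hM hα hH0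
  obtain ⟨ε, hε, hεb⟩ := hH0
  have hδ : ∀ i, (-ε i = 1 ∨ -ε i = -1) := fun i => by
    rcases hε i with e | e <;> rw [e] <;> norm_num
  have hF := dfr_sign h hI hF0 hδ
  set F : Fin 8 → M := fun i => (-ε i) • F0 i with hFd
  have hαF : ∀ i, b α (F i) = -s := by
    intro i
    rw [hFd, CON.H24.zsmul_right h, hεb]
    rcases hε i with e | e <;> rw [e] <;> ring
  have hH : Half b s F α := ⟨fun _ => -1, fun _ => Or.inr rfl, fun i => by rw [hαF]; ring⟩
  have ht := types8 hE hT h hI hF hM hα hH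
  have h4 : (4 : ℤ) • α = ∑ i, (-1 : ℤ) • F i :=
    CON.H24.half_span h hI hF hα (ε := fun _ => -1) (fun _ => Or.inr rfl)
      (fun i => by rw [hαF]; ring)
  obtain ⟨f1, f2, f3⟩ := hF
  refine ⟨Or.inr (Or.inr rfl), fun i => F (Fin.succ i), α, hα, ⟨fun i => f1 _, ?_, ?_⟩,
    fun i => hαF _, ?_⟩
  · intro i j hij
    exact f2 _ _ (fun e => hij (Fin.succ_injective _ e))
  · intro i j hij
    exact f3 _ _ (fun e => hij (Fin.succ_injective _ e))
  set H : AddSubgroup M := AddSubgroup.closure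
    ({β | β ∈ C ∧ InD (fun i : Fin 7 => F (Fin.succ i)) β} ∪ {α}) with hHd
  have hα' : α ∈ H := AddSubgroup.subset_closure (Or.inr rfl)
  -- sums and differences with indices ≥ 1
  have g1 : ∀ i j : Fin 7, i ≠ j → F i.succ + F j.succ ∈ dbl H := by
    intro i j hij
    obtain ⟨w, hw, e⟩ := (f3 i.succ j.succ (fun e => hij (Fin.succ_injective _ e))).1
    exact ⟨w, AddSubgroup.subset_closure (Or.inl ⟨hw, i, j, hij, Or.inl e⟩), e⟩
  have g2 : ∀ i j : Fin 7, i ≠ j → F i.succ - F j.succ ∈ dbl H := by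
    intro i j hij
    obtain ⟨w, hw, e⟩ := (f3 i.succ j.succ (fun e => hij (Fin.succ_injective _ e))).2
    exact ⟨w, AddSubgroup.subset_closure (Or.inl ⟨hw, i, j, hij, Or.inr (Or.inl e)⟩), e⟩
  have g3 : ∀ j : Fin 7, (2 : ℤ) • F j.succ ∈ dbl H := by
    intro j
    obtain ⟨l, hl⟩ : ∃ l : Fin 7, j ≠ l := by
      by_cases h0 : j = 0
      · exact ⟨1, by rw [h0]; decide⟩
      · exact ⟨0, h0⟩
    have := (dbl H).add_mem (g1 j l hl) (g2 j l hl)
    have e : F j.succ + F l.succ + (F j.succ - F l.succ) = (2 : ℤ) • F j.succ := by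
      rw [two_smul]; abel
    rwa [e] at this
  have g4 : F 0 + F 1 ∈ dbl H := by
    have h5 : -((4 : ℤ) • α) - (F 2 + F 3) - (F 4 + F 5) - (F 6 + F 7) ∈ dbl H := by
      refine (dbl H).sub_mem ((dbl H).sub_mem ((dbl H).sub_mem ((dbl H).neg_mem ?_) ?_) ?_) ?_
      · exact ⟨(2 : ℤ) • α, H.zsmul_mem hα' 2, by rw [← mul_smul]; norm_num⟩
      · exact g1 1 2 (by decide)
      · exact g1 3 4 (by decide)
      · exact g1 5 6 (by decide)
    have e : -((4 : ℤ) • α) - (F 2 + F 3) - (F 4 + F 5) - (F 6 + F 7) = F 0 + F 1 := by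
      rw [h4, Fin.sum_univ_eight]
      simp only [neg_smul, one_smul]
      abel
    rwa [e] at h5
  have g5 : ∀ j : Fin 7, F 0 + F j.succ ∈ dbl H := by
    intro j
    by_cases hj : j = 0
    · rw [hj]; exact g4
    · have := (dbl H).add_mem g4 (g2 j 0 hj)
      have e : F 0 + F 1 + (F j.succ - F (Fin.succ 0)) = F 0 + F j.succ := by
        have : (Fin.succ 0 : Fin 8) = 1 := rfl
        rw [this]; abel
      rwa [e] at this
  have g6 : (2 : ℤ) • F 0 ∈ dbl H := by
    have := (dbl H).sub_mem ((dbl H).add_mem (g5 0) (g5 0)) (g3 0)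
    have e : F 0 + F (Fin.succ 0) + (F 0 + F (Fin.succ 0)) - (2 : ℤ) • F (Fin.succ 0)
        = (2 : ℤ) • F 0 := by
      rw [two_smul, two_smul]; abel
    rwa [e] at this
  have g7 : ∀ i : Fin 8, F i + F 0 ∈ dbl H := by
    intro i
    refine Fin.cases ?_ (fun j => ?_) i
    · have := g6
      rwa [two_smul] at this
    · rw [add_comm]; exact g5 j
  have g8 : ∀ i : Fin 8, (2 : ℤ) • F i ∈ dbl H := by
    intro i
    refine Fin.cases g6 (fun j => g3 j) i
  have g9 : ∀ i j : Fin 8, F i + F j ∈ dbl H := by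
    intro i j
    have := (dbl H).sub_mem ((dbl H).add_mem (g7 i) (g7 j)) g6
    have e : F i + F 0 + (F j + F 0) - (2 : ℤ) • F 0 = F i + F j := by
      rw [two_smul]; abel
    rwa [e] at this
  have g10 : ∀ i j : Fin 8, F i - F j ∈ dbl H := by
    intro i j
    have := (dbl H).sub_mem (g9 i j) (g8 j)
    have e : F i + F j - (2 : ℤ) • F j = F i - F j := by
      rw [two_smul]; abel
    rwa [e] at this
  -- roots
  intro x hx
  refine (AddSubgroup.closure_le H).2 ?_ hx
  intro β hβ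
  rcases ht β hβ with ⟨i, j, -, e | e | e⟩ | ⟨δ, hδ1, hδ2⟩
  · exact mem_dbl h (by rw [e]; exact g9 i j)
  · exact mem_dbl h (by rw [e]; exact g10 i j)
  · exact mem_dbl h (by rw [e]; exact (dbl H).neg_mem (g9 i j))
  · have h5 := CON.H24.half_span h hI ⟨f1, f2, f3⟩ hβ hδ1 hδ2
    classical
    set T : Finset (Fin 8) := Finset.univ.filter fun i => δ i = 1 with hT
    have h6 : (2 : ℤ) • (β - α) = ∑ i ∈ T, F i := by
      apply two_inj h
      rw [← mul_smul]
      have e : ((2 : ℤ) * 2) • (β - α) = (4 : ℤ) • β - (4 : ℤ) • α := by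
        rw [smul_sub]; norm_num
      rw [e, h5, h4, ← Finset.sum_sub_distrib, Finset.smul_sum, hT, Finset.sum_filter]
      refine Finset.sum_congr rfl fun i _ => ?_
      rcases hδ1 i with e | e <;> rw [e]
      · rw [if_pos rfl, neg_smul, one_smul, two_smul]; abel
      · rw [if_neg (by norm_num)]; simp
    have h7 : b ((2 : ℤ) • (β - α)) ((2 : ℤ) • (β - α)) = 4 * s * T.card := by
      rw [h6, CON.H24.sum_right h]
      have : ∀ i ∈ T, b (∑ j ∈ T, F j) (F i) = 4 * s := by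
        intro i hi
        rw [CON.H24.sum_left h, Finset.sum_eq_single i]
        · exact f1 i
        · intro j _ hj
          exact f2 j i hj
        · intro hn
          exact absurd hi hn
      rw [Finset.sum_congr rfl this, Finset.sum_const, nsmul_eq_mul]
      ring
    obtain ⟨m, hm⟩ := hI.dvd β hβ α hα
    have h8 : (T.card : ℤ) = 2 * (2 - m) := by
      rw [CON.H24.zsmul_left h, CON.H24.zsmul_right h, CON.H24.sub_left h, CON.H24.sub_right h,
        CON.H24.sub_right h, hI.norm β hβ, hI.norm α hα, h.symm α β, hm] at h7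
      have hs := hI.pos
      have h9 : 4 * s * ((T.card : ℤ) - 2 * (2 - m)) = 0 := by linear_combination -h7
      rcases mul_eq_zero.1 h9 with h10 | h10
      · omega
      · omega
    have h9 : ∑ i ∈ T, (F i + F 0) ∈ dbl H := (dbl H).sum_mem fun i _ => g7 i
    have h10 : ∑ i ∈ T, F i ∈ dbl H := by
      have h11 := (dbl H).sub_mem h9 ((dbl H).zsmul_mem g6 (2 - m))
      have e : ∑ i ∈ T, (F i + F 0) - (2 - m) • (2 : ℤ) • F 0 = ∑ i ∈ T, F i := by
        rw [Finset.sum_add_distrib, Finset.sum_const, ← mul_smul, ← natCast_zsmul, h8,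
          mul_comm (2 - m) 2]
        abel
      rwa [e] at h11
    have h11 : β - α ∈ H := mem_dbl h (by rw [h6]; exact h10)
    have := H.add_mem h11 hα'
    rwa [sub_add_cancel] at this

end Pool.Agent.CN2.H24

end
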